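import Pool.Agent.Y676.IS.Fin
import Pool.Agent.Y655.XT.Shavc

/-!
# Project ShaFour: the Tate-Shafarevich groups of a curve and of the 2-isogenous curve
-/

set_option autoImplicit false
set_option linter.unusedSectionVars false

namespace Pool.Agent.Q269.ShaFour

open WeierstrassCurve

open Pool.Agent.TH841.SH.D

open Pool.Agent.TH841.LS (WI LocI T0 coc)

open Pool.Agent.TH841.PT (EQ isR_EQ)

open Pool.Agent.TH841.NO (SQ fo)

open Pool.Agent.Y676.IS

/-! ### Finite groups -/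

lemma fin_card {G G' : Type} [AddCommGroup G] [AddCommGroup G'] (f : G →+ G')
    (hk : Finite f.ker) (hr : Finite f.range) :
    Finite G ∧ Nat.card G = Nat.card f.ker * Nat.card f.range := by
  have e : (G ⧸ f.ker) ≃ f.range := (QuotientAddGroup.quotientKerEquivRange f).toEquiv
  have : Finite (G ⧸ f.ker) := Finite.of_equiv _ e.symm
  have : Finite G := Finite.of_addSubgroup_quotient f.ker
  refine ⟨inferInstance, ?_⟩
  rw [AddSubgroup.card_eq_card_quotient_mul_card_addSubgroup f.ker, Nat.card_congr e, mul_comm]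

/-- the elements killed by two -/
def V2 (G : Type) [AddCommGroup G] : AddSubgroup G where
  carrier := {x | x + x = 0}
  zero_mem' := add_zero 0
  add_mem' := by
    intro x y hx hy
    change x + y + (x + y) = 0
    have hx' : x + x = 0 := hx
    have hy' : y + y = 0 := hy
    have : x + y + (x + y) = (x + x) + (y + y) := by abel
    rw [this, hx', hy', add_zero]
  neg_mem' := by
    intro x hx
    change -x + -x = 0
    have hx' : x + x = 0 := hx
    rw [← neg_add, hx', neg_zero]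

lemma mem_V2 {G : Type} [AddCommGroup G] {x : G} : x ∈ V2 G ↔ x + x = 0 := Iff.rfl

/-- a finite group killed by two -/
theorem elem_two {V : Type} [AddCommGroup V] (hf : Finite V) (h2 : ∀ x : V, x + x = 0) :
    ∃ k : ℕ, Nat.card V = 2 ^ k ∧ Nonempty (V ≃+ (Fin k → ZMod 2)) := by
  have hmod : ∀ x : V, 2 • x = 0 := fun x => by rw [two_nsmul]; exact h2 x
  let : Module (ZMod 2) V := AddCommGroup.zmodModule hmod
  have : Module.Finite (ZMod 2) V := Module.Finite.of_finite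
  refine ⟨Module.finrank (ZMod 2) V, ?_, ⟨?_⟩⟩
  · rw [Module.natCard_eq_pow_finrank (K := ZMod 2), Nat.card_zmod]
  · exact (Module.finBasis (ZMod 2) V).equivFun.toAddEquiv

lemma card_fun (k : ℕ) : Nat.card (Fin k → ZMod 2) = 2 ^ k := by
  simp

/-- from an injective homomorphism -/
lemma le_of_inj' {G : Type} [AddCommGroup G] {k k' : ℕ} (hk : Nat.card (V2 G) = 2 ^ k)
    (hfin : Finite (V2 G)) {φ : (Fin k' → ZMod 2) →+ G} (hi : Function.Injective φ) : k' ≤ k := by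
  have h2 : ∀ v, φ v ∈ V2 G := by
    intro v
    rw [mem_V2, ← map_add]
    have : v + v = 0 := by
      funext i
      exact CharTwo.add_self_eq_zero _
    rw [this, map_zero]
  have h1 : Nat.card (Fin k' → ZMod 2) ≤ Nat.card (V2 G) :=
    Nat.card_le_card_of_injective (fun v => (⟨φ v, h2 v⟩ : V2 G))
      (fun v w hvw => hi (congrArg Subtype.val hvw))
  rw [card_fun, hk] at h1
  exact (Nat.pow_le_pow_iff_right (by norm_num : 1 < 2)).1 h1

/-! ### Maps on the Tate-Shafarevich groups -/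

variable {W W' : WeierstrassCurve ℚ}

theorem sha_comp_id (ψ : NH W W') (φ : NH W' W)
    (h : ∀ (L : Type) [Field L] [Algebra ℚ L] (P : Pt W L), φ.f L (ψ.f L P) = P) (x : Sha W) :
    φ.sha (ψ.sha x) = x := by
  obtain ⟨c, rfl⟩ := cls_surj x
  rw [sha_cls, sha_cls]
  apply cls_eq
  have : (φ.shaC (ψ.shaC c)).1 - c.1 = 0 := by
    funext σ
    change φ.f _ (ψ.f _ (c.1 σ)) - c.1 σ = 0
    rw [h, sub_self]
  rw [this]
  exact cob_zero W

theorem sha_comp_two (ψ : NH W W') (φ : NH W' W)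
    (h : ∀ (L : Type) [Field L] [Algebra ℚ L] (P : Pt W L), φ.f L (ψ.f L P) = P + P) (x : Sha W) :
    φ.sha (ψ.sha x) = x + x := by
  obtain ⟨c, rfl⟩ := cls_surj x
  rw [sha_cls, sha_cls, ← cls_add]
  apply cls_eq
  have : (φ.shaC (ψ.shaC c)).1 - (c + c).1 = 0 := by
    funext σ
    change φ.f _ (ψ.f _ (c.1 σ)) - (c.1 σ + c.1 σ) = 0
    rw [h, sub_self]
  rw [this]
  exact cob_zero W

/-- an isomorphism as a homomorphism over all fields -/
noncomputable def nhI (I : Pool.Agent.Y655.XT.Iso W W') : NH W' W where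
  f := fun L _ _ => (I.e L).toAddMonoidHom
  nat := fun _ _ _ _ _ _ g P => (I.ac g P).symm

/-- isomorphic curves have isomorphic Tate-Shafarevich groups -/
noncomputable def shaEquiv (I : Pool.Agent.Y655.XT.Iso W W') : Sha W' ≃+ Sha W :=
  { (nhI I).sha with
    invFun := (nhI I.symm).sha
    left_inv := sha_comp_id (nhI I) (nhI I.symm) (fun L _ _ P => (I.e L).symm_apply_apply P)
    right_inv := sha_comp_id (nhI I.symm) (nhI I) (fun L _ _ P => (I.e L).apply_symm_apply P) }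

/-- the change of variables -/
theorem sha_vr {u r s t : ℚ} (h : Pool.Agent.Y700.VR W W' u r s t) (hD : W'.Δ ≠ 0) :
    Nonempty (Sha W' ≃+ Sha W) := ⟨shaEquiv (Pool.Agent.Y655.XT.isoVR h hD)⟩

/-! ### The kernel of the isogeny -/

section

attribute [-instance] DivisionRing.toRatAlgebra

/-- every class in the kernel is the class of a cocycle `χ_d T` -/
theorem ker0 {A B : ℤ} (h : A ≠ B) (hA : A ≠ 0) (hB : B ≠ 0) (ψ : NH (WI A B) (EQ A B))
    (φ : NH (EQ A B) (WI A B))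
    (h2 : ∀ (L : Type) [Field L] [Algebra ℚ L] (P : Pt (EQ A B) L), ψ.f L (φ.f L P) = P + P)
    (h3 : ∀ (L : Type) [Field L] [Algebra ℚ L] (P : Pt (WI A B) L),
      ψ.f L P = 0 → P = 0 ∨ P = T0 h L) (x : Sha (WI A B)) (hz : ψ.sha x = 0) :
    ∃ d : ℤ, Squarefree d ∧ ∃ hd : coc h d ∈ shaCoc (WI A B),
      cls (WI A B) ⟨coc h d, hd⟩ = x := by
  obtain ⟨c, rfl⟩ := cls_surj x
  rw [sha_cls, cls_zero_iff] at hz
  obtain ⟨Q, hQ⟩ := hz
  obtain ⟨R, hR⟩ := div2 h hA hB Q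
  have hP : ψ.f _ (φ.f _ R) = Q := by rw [h2, hR]
  obtain ⟨P, hPd⟩ : ∃ P, P = φ.f (AlgebraicClosure ℚ) R := ⟨_, rfl⟩
  rw [← hPd] at hP
  let c' : Coch (WI A B) := fun σ => c.1 σ - (act (WI A B) σ.toAlgHom P - P)
  have hd : IsCob (WI A B) (c.1 - c') := by
    refine ⟨P, fun σ => ?_⟩
    change c.1 σ - (c.1 σ - (act (WI A B) σ.toAlgHom P - P)) = _
    abel
  have hsub : c' = c.1 - (c.1 - c') := by abel
  have hbc : c.1 - c' ∈ shaCoc (WI A B) := cob_shaCoc hd
  have hc' : c' ∈ shaCoc (WI A B) := by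
    rw [hsub]
    exact sub_mem c.2 hbc
  have hv : ∀ σ, c' σ = 0 ∨ c' σ = T0 h (AlgebraicClosure ℚ) := by
    intro σ
    apply h3
    change ψ.f _ (c.1 σ - (act (WI A B) σ.toAlgHom P - P)) = 0
    have h4 : ψ.f _ (c.1 σ) = act (EQ A B) σ.toAlgHom Q - Q := hQ σ
    rw [map_sub, map_sub, ← ψ.nat, hP, h4, sub_self]
  obtain ⟨d, hsq, hcd⟩ := coc_of h hc'.1 hv
  rw [hcd] at hc'
  refine ⟨d, hsq, hc', ?_⟩
  apply cls_eq
  have e1 : coc h d - c.1 = -(c.1 - c') := by
    rw [← hcd]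
    abel
  rw [show ((⟨coc h d, hc'⟩ : shaCoc (WI A B)) : Coch (WI A B)) = coc h d from rfl, e1]
  exact cob_neg hd

end

/-- **the order of `Ш[2]` of the curve `WI A B`** -/
theorem upper (hlcb : S_LCB) (hlqu : S_LQU) (hsqf : S_SQF) {A B : ℤ} (h : A ≠ B) (hA : A ≠ 0)
    (hB : B ≠ 0) (hfin : Finite (ShaTor (EQ A B) (2 ^ 1))) {R : ℕ}
    (hR : Nat.card (ShaTor (EQ A B) (2 ^ 1)) ≤ 2 ^ R) :
    ∃ k : ℕ, k ≤ fo (-(A + B)) (A * B) + R ∧ Finite (V2 (Sha (WI A B))) ∧
      Nat.card (V2 (Sha (WI A B))) = 2 ^ k ∧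
      Nonempty (V2 (Sha (WI A B)) ≃+ (Fin k → ZMod 2)) := by
  classical
  obtain ⟨ψ, φ, h1, h2, h3⟩ := exists_NH h hA hB
  let g : V2 (Sha (WI A B)) →+ V2 (Sha (EQ A B)) :=
    { toFun := fun x => ⟨ψ.sha x.1, by
        rw [mem_V2, ← map_add, mem_V2.1 x.2, map_zero]⟩
      map_zero' := Subtype.ext (map_zero ψ.sha)
      map_add' := fun x y => Subtype.ext (map_add ψ.sha x.1 y.1) }
  have hg : ∀ x, (g x).1 = ψ.sha x.1 := fun x => rfl
  -- the target
  have hT : ∀ y : Sha (EQ A B), y + y = 0 ↔ (2 ^ 1) • y = 0 := by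
    intro y
    rw [pow_one, two_nsmul]
  let e : V2 (Sha (EQ A B)) → ShaTor (EQ A B) (2 ^ 1) := fun y => ⟨y.1, (hT _).1 (mem_V2.1 y.2)⟩
  have he : Function.Injective e := by
    intro y z hyz
    have h0 : (e y).1 = (e z).1 := by rw [hyz]
    exact Subtype.ext h0
  have hf1 : Finite (V2 (Sha (EQ A B))) := Finite.of_injective e he
  have hc1 : Nat.card (V2 (Sha (EQ A B))) ≤ 2 ^ R :=
    (Nat.card_le_card_of_injective e he).trans hR
  have hr1 : Nat.card g.range ≤ 2 ^ R :=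
    (Nat.card_le_card_of_injective _ Subtype.val_injective).trans hc1
  -- the kernel
  have hb : A * B ≠ 0 := mul_ne_zero hA hB
  have hSfin := hsqf (-(A + B)) (A * B) hb
  have hmemS : ∀ x : Sha (WI A B), ψ.sha x = 0 → ∃ d ∈ SQ (-(A + B)) (A * B),
      ∃ hd : coc h d ∈ shaCoc (WI A B), cls (WI A B) ⟨coc h d, hd⟩ = x := by
    intro x hx
    obtain ⟨d, hsq, hd, he⟩ := ker0 h hA hB ψ φ h2 h3 x hx
    exact ⟨d, hlqu A B d hA hB h hsq (hlcb A B h d hA hB hsq.ne_zero ℝ hd.2.2)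
      (fun p _ => hlcb A B h d hA hB hsq.ne_zero ℚ_[p] (hd.2.1 p)), hd, he⟩
  let F : SQ (-(A + B)) (A * B) → Sha (WI A B) := fun d =>
    if hd : coc h d.1 ∈ shaCoc (WI A B) then cls (WI A B) ⟨coc h d.1, hd⟩ else 0
  have hkF : ∀ x : g.ker, x.1.1 ∈ Set.range F := by
    intro x
    have hx : ψ.sha x.1.1 = 0 := by
      have := x.2
      rw [AddMonoidHom.mem_ker] at this
      exact congrArg Subtype.val this
    obtain ⟨d, hd, hd', hx'⟩ := hmemS _ hx
    refine ⟨⟨d, hd⟩, ?_⟩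
    simp only [F]
    rw [dif_pos hd', hx']
  have hfS : Finite (SQ (-(A + B)) (A * B)) := hSfin
  let e2 : g.ker → Set.range F := fun x => ⟨x.1.1, hkF x⟩
  have he2 : Function.Injective e2 := by
    intro y z hyz
    have h0 : (e2 y).1 = (e2 z).1 := by rw [hyz]
    exact Subtype.ext (Subtype.ext h0)
  have hfk : Finite g.ker := Finite.of_injective e2 he2
  have hck : Nat.card g.ker ≤ (SQ (-(A + B)) (A * B)).ncard := by
    refine (Nat.card_le_card_of_injective e2 he2).trans ?_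
    rw [← Nat.card_coe_set_eq]
    exact Finite.card_range_le F
  obtain ⟨hfV, hcV⟩ := fin_card g hfk (Finite.of_injective _ Subtype.val_injective)
  obtain ⟨k, hk, hke⟩ := elem_two hfV (fun x => Subtype.ext (mem_V2.1 x.2))
  obtain ⟨k0, hk0, -⟩ := elem_two hfk (fun x => Subtype.ext (Subtype.ext (mem_V2.1 x.1.2)))
  refine ⟨k, ?_, hfV, hk, hke⟩
  have hk0' : k0 ≤ fo (-(A + B)) (A * B) := by
    unfold fo
    exact Nat.le_log_of_pow_le (by norm_num) (hk0 ▸ hck)
  have h5 : 2 ^ k ≤ 2 ^ (fo (-(A + B)) (A * B) + R) := by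
    rw [← hk, hcV, hk0, pow_add]
    exact Nat.mul_le_mul (Nat.pow_le_pow_right (by norm_num) hk0') hr1
  exact (Nat.pow_le_pow_iff_right (by norm_num : 1 < 2)).1 h5

end Pool.Agent.Q269.ShaFour
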