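import Pool.Agent.Q269.ShaFour.Alg
import Pool.Agent.Y676.IS.Cnt
import Pool.Agent.Y497.IS.LCB
import Pool.Agent.Y500.IS.LQU

/-!
# Project ShaFour: the order of `Ш[2]` of the curves `WI A B` for almost all pairs
-/

set_option autoImplicit false
set_option linter.unusedSectionVars false

namespace Pool.Agent.Q269.ShaFour

open Finset WeierstrassCurve

open Pool.Agent.TH841.SH.D

open Pool.Agent.TH841.LS (WI big_loglog)

open Pool.Agent.TH841.PT (EQ)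

open Pool.Agent.TH841.NO (SQ fo)

/-- the iterated logarithm -/
noncomputable def LL (X : ℕ) : ℝ := Real.log (Real.log X)

/-- the elements of `G` killed by two form a group `(ℤ / 2) ^ k`, `k` close to `(3 / 2) log log X` -/
def LawV (δ : ℝ) (X : ℕ) (G : Type) [AddCommGroup G] : Prop :=
  ∃ k : ℕ, |(k : ℝ) - 3 / 2 * LL X| ≤ δ * LL X ∧ Nonempty (V2 G ≃+ (Fin k → ZMod 2))

theorem LawV.congr {δ : ℝ} {X : ℕ} {G G' : Type} [AddCommGroup G] [AddCommGroup G']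
    (e : G ≃+ G') (h : LawV δ X G) : LawV δ X G' := by
  obtain ⟨k, h1, ⟨f⟩⟩ := h
  refine ⟨k, h1, ⟨?_⟩⟩
  have e2 : V2 G' ≃+ V2 G :=
    { toFun := fun x => ⟨e.symm x.1, by
        rw [mem_V2, ← map_add, mem_V2.1 x.2, map_zero]⟩
      invFun := fun x => ⟨e x.1, by
        rw [mem_V2, ← map_add, mem_V2.1 x.2, map_zero]⟩
      left_inv := fun x => Subtype.ext (e.apply_symm_apply x.1)
      right_inv := fun x => Subtype.ext (e.symm_apply_apply x.1)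
      map_add' := fun x y => Subtype.ext (map_add e.symm x.1 y.1) }
  exact e2.trans f

open Classical in
/-- almost all the coprime pairs of a square -/
theorem box (D : ℤ) (hD : D ≠ 0) (δ ε : ℝ) (hδ : 0 < δ) (hε : 0 < ε) :
    ∃ X0 : ℕ, ∀ (N : ℤ) (X : ℕ), X0 ≤ X → N.natAbs ≤ X →
      (((Icc 1 X ×ˢ Icc 1 X).filter (fun t : ℕ × ℕ =>
        IsCoprime (N + (t.1 : ℤ)) (N + (t.2 : ℤ)) ∧
        ¬ ∀ A B : ℤ, A = D * (N + (t.1 : ℤ)) → B = D * (N + (t.2 : ℤ)) →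
        A ≠ 0 ∧ B ≠ 0 ∧ A ≠ B ∧ LawV δ X (Sha (WI A B)))).card : ℝ) ≤ ε * X ^ 2 := by
  have havg := Pool.Agent.W307.FK.avgn_of Pool.Agent.W307.FK.expf
  obtain ⟨R1, X1, g1⟩ := Pool.Agent.TH841.LS.large6 Pool.Agent.TH841.LS.CNT2Xf.cnt2x havg D hD
    (δ / 2) (ε / 2) 1 (by positivity) (by positivity)
  obtain ⟨R2, X2, g2⟩ := Pool.Agent.TH841.NO.norder2 Pool.Agent.TH841.NO.QULf.qul
    Pool.Agent.TH841.NO.QUMf.qum Pool.Agent.TH841.NO.LWAf.lwa Pool.Agent.TH841.NO.LWBf.lwb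
    Pool.Agent.TH841.NO.LWBf.lwc Pool.Agent.TH841.NO.PRf.pra Pool.Agent.TH841.NO.PRf.prb
    Pool.Agent.TH841.NO.LIN2f.lin2 Pool.Agent.TH841.LS.CNT2Xf.cnt2x
    Pool.Agent.TH841.NO.CNTU2f.cntu2 havg D hD (δ / 2) (ε / 2) 1 (by positivity) (by positivity)
  obtain ⟨X3, g3⟩ := big_loglog (δ / 2) ((R1 : ℝ) + 1) (by positivity)
  refine ⟨X1 + X2 + X3 + 1, fun N X hX hN => ?_⟩
  have hN1 : N.natAbs ≤ X ^ 1 := by rw [pow_one]; exact hN
  have b1 := g1 N N X (by omega) hN1 hN1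
  have b2 := g2 N N X (by omega) hN1 hN1
  have b3 := g3 X (by omega)
  set S1 := (Icc 1 X ×ˢ Icc 1 X).filter (fun t : ℕ × ℕ =>
        IsCoprime (N + (t.1 : ℤ)) (N + (t.2 : ℤ)) ∧
        ¬ ∀ A B : ℤ, A = D * (N + (t.1 : ℤ)) → B = D * (N + (t.2 : ℤ)) →
        A ≠ 0 ∧ B ≠ 0 ∧ A ≠ B ∧
        (∀ j : ℕ, Finite (ShaTor (EQ A B) (2 ^ j))) ∧
        (∀ j : ℕ, 1 ≤ j → (2 : ℝ) ^ rk (EQ A B) *
          (Nat.card (ShaTor (EQ A B) (2 ^ j)) : ℝ) ^ ((1 : ℝ) / j) ≤ 2 ^ (R1 + 1)) ∧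
        ∃ k : ℕ, (3 / 2 - δ / 2) * Real.log (Real.log X) ≤ k ∧
        ∃ φ : (Fin k → ZMod 2) →+ Sha (WI A B), Function.Injective φ) with hS1
  set S2 := (Icc 1 X ×ˢ Icc 1 X).filter (fun t : ℕ × ℕ =>
        IsCoprime (N + (t.1 : ℤ)) (N + (t.2 : ℤ)) ∧
        ¬ ∀ A B : ℤ, A = D * (N + (t.1 : ℤ)) → B = D * (N + (t.2 : ℤ)) →
        A ≠ 0 ∧ B ≠ 0 ∧ A ≠ B ∧
        (3 / 2 - δ / 2) * Real.log (Real.log X) ≤ fo (-(A + B)) (A * B) ∧
        (fo (-(A + B)) (A * B) : ℝ) ≤ (3 / 2 + δ / 2) * Real.log (Real.log X) ∧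
        fo (2 * (A + B)) ((A - B) ^ 2) ≤ R2 ∧ rk (EQ A B) ≤ R2) with hS2
  set S := (Icc 1 X ×ˢ Icc 1 X).filter (fun t : ℕ × ℕ =>
        IsCoprime (N + (t.1 : ℤ)) (N + (t.2 : ℤ)) ∧
        ¬ ∀ A B : ℤ, A = D * (N + (t.1 : ℤ)) → B = D * (N + (t.2 : ℤ)) →
        A ≠ 0 ∧ B ≠ 0 ∧ A ≠ B ∧ LawV δ X (Sha (WI A B))) with hS
  have hsub : S ⊆ S1 ∪ S2 := by
    intro t ht
    rw [hS, mem_filter] at ht
    obtain ⟨ht1, ht2, ht3⟩ := ht
    by_contra hcon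
    rw [mem_union, not_or, hS1, hS2, mem_filter, mem_filter] at hcon
    obtain ⟨c1, c2⟩ := hcon
    apply ht3
    have d1 := not_not.1 (fun h => c1 ⟨ht1, ht2, h⟩)
    have d2 := not_not.1 (fun h => c2 ⟨ht1, ht2, h⟩)
    intro A B hA hB
    obtain ⟨n1, n2, n3, f1, f2, k', k1, φ, k2⟩ := d1 A B hA hB
    obtain ⟨-, -, -, -, l2, -, -⟩ := d2 A B hA hB
    refine ⟨n1, n2, n3, ?_⟩
    have f3 := f2 1 le_rfl
    rw [Nat.cast_one, div_one, Real.rpow_one] at f3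
    have f4 : (Nat.card (ShaTor (EQ A B) (2 ^ 1)) : ℝ) ≤ 2 ^ (R1 + 1) := by
      have h1 : (1 : ℝ) ≤ 2 ^ rk (EQ A B) := one_le_pow₀ (by norm_num)
      have h2 : (0 : ℝ) ≤ Nat.card (ShaTor (EQ A B) (2 ^ 1)) := Nat.cast_nonneg _
      nlinarith
    have f5 : Nat.card (ShaTor (EQ A B) (2 ^ 1)) ≤ 2 ^ (R1 + 1) := by exact_mod_cast f4
    obtain ⟨k, u1, u2, u3, u4⟩ := upper Pool.Agent.Y497.IS.lcb Pool.Agent.Y500.IS.lqu
      Pool.Agent.Y500.IS.sqf n3 n1 n2 (f1 1) f5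
    refine ⟨k, ?_, u4⟩
    have h6 : k' ≤ k := le_of_inj' u3 u2 k2
    have h7 : (k' : ℝ) ≤ k := by exact_mod_cast h6
    have h8 : (k : ℝ) ≤ fo (-(A + B)) (A * B) + ((R1 : ℝ) + 1) := by exact_mod_cast u1
    unfold LL
    have h9 : 0 ≤ δ / 2 * Real.log (Real.log X) := le_trans (by positivity) b3
    rw [abs_le]
    constructor
    · linarith
    · linarith
  have hcard : S.card ≤ S1.card + S2.card := (card_le_card hsub).trans (card_union_le _ _)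
  have hcard' : (S.card : ℝ) ≤ S1.card + S2.card := by exact_mod_cast hcard
  linarith

/-- the change of the scale -/
theorem law_cmp (δ : ℝ) (hδ : 0 < δ) (K : ℕ) (hK : 1 ≤ K) : ∃ M0 : ℕ, ∀ (X H : ℕ) (G : Type)
    [AddCommGroup G], M0 ≤ X → X ≤ H → H ≤ X ^ K → LawV (δ / 2) X G → LawV δ H G := by
  obtain ⟨M, hM⟩ := big_loglog (δ / 2) (3 / 2 * Real.log K) (by positivity)
  refine ⟨M + 16, fun X H G _ hX h1 h2 hL => ?_⟩
  obtain ⟨k, k1, k2⟩ := hL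
  refine ⟨k, ?_, k2⟩
  have hb := hM X (by omega)
  unfold LL at k1 ⊢
  have hX16 : (16 : ℝ) ≤ X := by
    have : 16 ≤ X := by omega
    exact_mod_cast this
  have hXH : (X : ℝ) ≤ H := by exact_mod_cast h1
  have hHX : (H : ℝ) ≤ (X : ℝ) ^ K := by exact_mod_cast h2
  have l1 : 1 < Real.log X := by
    have h4 : Real.exp 1 < X := lt_of_lt_of_le (Real.exp_one_lt_d9.trans (by norm_num)) hX16
    have := Real.log_lt_log (Real.exp_pos 1) h4
    rwa [Real.log_exp] at this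
  have l2 : Real.log X ≤ Real.log H := Real.log_le_log (by linarith) hXH
  have l3 : Real.log H ≤ K * Real.log X := by
    have := Real.log_le_log (by linarith) hHX
    rwa [Real.log_pow] at this
  have m1 : Real.log (Real.log X) ≤ Real.log (Real.log H) := Real.log_le_log (by linarith) l2
  have hK' : (1 : ℝ) ≤ K := by exact_mod_cast hK
  have m2 : Real.log (Real.log H) ≤ Real.log K + Real.log (Real.log X) := by
    have h4 : Real.log (Real.log H) ≤ Real.log (K * Real.log X) :=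
      Real.log_le_log (by linarith) l3
    rwa [Real.log_mul (by linarith) (by linarith)] at h4
  have m0 : 0 < Real.log (Real.log X) := Real.log_pos l1
  have m3 : δ * Real.log (Real.log X) ≤ δ * Real.log (Real.log H) :=
    mul_le_mul_of_nonneg_left m1 hδ.le
  rw [abs_le] at k1 ⊢
  obtain ⟨k3, k4⟩ := k1
  have hlK : 0 ≤ Real.log K := Real.log_nonneg hK'
  constructor
  · linarith
  · linarith

end Pool.Agent.Q269.ShaFour
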