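import Pool.Agent.Q269.ShaFour.Pairs
import Pool.Agent.Q269.IsoFour.Fin

/-!
# Project ShaFour: the curves with a rational cyclic subgroup of order four
-/

set_option autoImplicit false
set_option linter.unusedSectionVars false

namespace Pool.Agent.Q269.ShaFour

open Finset WeierstrassCurve Filter Topology

open Pool.Agent.TH841.SH.D (Sha)

open Pool.Agent.TH841.LS (WI)

open Pool.Agent.TH841.PT (EQ)

open Pool.Agent.W307.RT (Sh Cv HasT)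

open Pool.Agent.W307.SE (Sel SelR)

open Pool.Agent.Q269.IsoFour

/-- the model `WI` -/
theorem vr_WI {c : ℤ × ℤ} {e s w r : ℤ} (hw : w ≠ 0) (he : e = w ^ 2 * r)
    (h1 : s ^ 2 - 3 * e ^ 2 = w ^ 4 * c.1) (h2 : 2 * e ^ 3 - s ^ 2 * e = w ^ 6 * c.2) :
    Pool.Agent.Y700.VR (Sh c.1 c.2) (WI (3 * e + 2 * s) (3 * e - 2 * s)) (1 / (2 * (w : ℚ)))
      (r : ℚ) 0 0 := by
  have hw' : (w : ℚ) ≠ 0 := by exact_mod_cast hw
  have he' : (e : ℚ) = w ^ 2 * r := by exact_mod_cast he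
  have h1' : (s : ℚ) ^ 2 - 3 * e ^ 2 = w ^ 4 * c.1 := by exact_mod_cast h1
  have h2' : 2 * (e : ℚ) ^ 3 - s ^ 2 * e = w ^ 6 * c.2 := by exact_mod_cast h2
  refine ⟨by positivity, ?_, ?_, ?_, ?_, ?_⟩
  · change 1 / (2 * (w : ℚ)) * 0 = 0 + 2 * 0
    ring
  · change (1 / (2 * (w : ℚ))) ^ 2 * (2 * (((3 * e + 2 * s : ℤ) : ℚ) + ((3 * e - 2 * s : ℤ) : ℚ))) =
      0 - 0 * 0 + 3 * (r : ℚ) - 0 ^ 2
    push_cast
    rw [he']
    field_simp
    ring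
  · change (1 / (2 * (w : ℚ))) ^ 3 * 0 = 0 + (r : ℚ) * 0 + 2 * 0
    ring
  · change (1 / (2 * (w : ℚ))) ^ 4 * (((3 * e + 2 * s : ℤ) : ℚ) - ((3 * e - 2 * s : ℤ) : ℚ)) ^ 2 =
      (c.1 : ℚ) - 0 * 0 + 2 * (r : ℚ) * 0 - (0 + (r : ℚ) * 0) * 0 + 3 * (r : ℚ) ^ 2 - 2 * 0 * 0
    push_cast
    have h3 : (s : ℚ) ^ 2 = w ^ 4 * (c.1 + 3 * r ^ 2) := by
      rw [he'] at h1'
      linear_combination h1'
    field_simp
    linear_combination 16 * h3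
  · change (1 / (2 * (w : ℚ))) ^ 6 * 0 = (c.2 : ℚ) + (r : ℚ) * (c.1 : ℚ) + (r : ℚ) ^ 2 * 0 +
      (r : ℚ) ^ 3 - 0 * 0 - 0 ^ 2 - (r : ℚ) * 0 * 0
    have h3 : (w : ℚ) ^ 6 * (c.2 + r * c.1 + r ^ 3) = 0 := by
      rw [he'] at h1' h2'
      linear_combination (-(w : ℚ) ^ 2 * r) * h1' - h2'
    have h4 := (mul_eq_zero.1 h3).resolve_left (pow_ne_zero 6 hw')
    linear_combination -h4

theorem delta_WI {A B : ℤ} (hA : A ≠ 0) (hB : B ≠ 0) (hAB : A ≠ B) : (WI A B).Δ ≠ 0 := by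
  have h1 : (WI A B).Δ = 256 * ((A : ℚ) - B) ^ 4 * (A * B) := by
    simp only [WI, WeierstrassCurve.Δ, WeierstrassCurve.b₂, WeierstrassCurve.b₄,
      WeierstrassCurve.b₆, WeierstrassCurve.b₈]
    ring
  rw [h1]
  have a1 : (A : ℚ) ≠ 0 := by exact_mod_cast hA
  have a2 : (B : ℚ) ≠ 0 := by exact_mod_cast hB
  have a3 : (A : ℚ) - B ≠ 0 := sub_ne_zero.2 (by exact_mod_cast hAB)
  exact mul_ne_zero (mul_ne_zero (by norm_num) (pow_ne_zero 4 a3)) (mul_ne_zero a1 a2)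

/-- the parameters are nonzero -/
theorem par_ne {c : ℤ × ℤ} {e s w : ℤ} (hD : Dn c)
    (h1 : s ^ 2 - 3 * e ^ 2 = w ^ 4 * c.1) (h2 : 2 * e ^ 3 - s ^ 2 * e = w ^ 6 * c.2) (hw : w ≠ 0) :
    3 * e + 2 * s ≠ 0 ∧ 3 * e - 2 * s ≠ 0 ∧ 3 * e + 2 * s ≠ 3 * e - 2 * s := by
  have h3 : w ^ 12 * (4 * c.1 ^ 3 + 27 * c.2 ^ 2) =
      -(s ^ 4 * (3 * e + 2 * s) * (3 * e - 2 * s)) := by
    have e1 : w ^ 12 * (4 * c.1 ^ 3 + 27 * c.2 ^ 2) =
      4 * (w ^ 4 * c.1) ^ 3 + 27 * (w ^ 6 * c.2) ^ 2 := by ring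
    rw [e1, ← h1, ← h2]
    ring
  have h4 : w ^ 12 * (4 * c.1 ^ 3 + 27 * c.2 ^ 2) ≠ 0 := mul_ne_zero (pow_ne_zero 12 hw) hD
  rw [h3] at h4
  refine ⟨?_, ?_, ?_⟩
  · intro h
    apply h4
    rw [h]
    ring
  · intro h
    apply h4
    rw [h]
    ring
  · intro h
    apply h4
    have : s = 0 := by linarith
    rw [this]
    ring

/-- the isomorphism with the model `WI` -/
theorem to_WI {c : ℤ × ℤ} {e s w r : ℤ} (hD : Dn c) (hw : w ≠ 0) (he : e = w ^ 2 * r)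
    (h1 : s ^ 2 - 3 * e ^ 2 = w ^ 4 * c.1) (h2 : 2 * e ^ 3 - s ^ 2 * e = w ^ 6 * c.2) :
    Nonempty (Sha (WI (3 * e + 2 * s) (3 * e - 2 * s)) ≃+ Sha (Sh c.1 c.2)) ∧
    Nonempty ((WI (3 * e + 2 * s) (3 * e - 2 * s)).toAffine.Point ≃+ (Sh c.1 c.2).toAffine.Point) := by
  obtain ⟨n1, n2, n3⟩ := par_ne hD h1 h2 hw
  have h := vr_WI hw he h1 h2
  exact ⟨sha_vr h (delta_WI n1 n2 n3), ⟨h.equiv (delta_WI n1 n2 n3)⟩⟩

open Classical in
/-- **almost all curves** -/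
theorem law4 (δ ε : ℝ) (hδ : 0 < δ) (hε : 0 < ε) : ∃ H0 : ℕ, ∀ H : ℕ, H0 ≤ H →
    (((F4 H).filter (fun c => ¬ LawV δ H (Sha (Sh c.1 c.2)))).card : ℝ) ≤ ε * (F4 H).card := by
  obtain ⟨a, b, m, H1, ha, hb, hm, hsz⟩ := sizes
  obtain ⟨L, hL⟩ : ∃ L : ℕ, L = 5 ^ 6 * 1024 * 64 * m := ⟨_, rfl⟩
  have hL1 : 1 ≤ L := by omega
  have hLr : (0 : ℝ) < L := by exact_mod_cast hL1
  obtain ⟨M0, hM0⟩ := pairs δ (ε * a / (3 * L ^ 2)) hδ (by positivity)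
  refine ⟨H1 + m * (2 * (M0 + 3 * L + 1)) ^ 6, fun H hH => ?_⟩
  obtain ⟨T, hT1, hT2, hT3, hT4, -⟩ := hsz H (by omega)
  have hT5 : M0 + 3 * L + 1 ≤ T := by
    by_contra hcon
    have h1 : T ≤ M0 + 3 * L + 1 := by omega
    have h2 : m * (2 * T) ^ 6 ≤ m * (2 * (M0 + 3 * L + 1)) ^ 6 :=
      Nat.mul_le_mul_left _ (Nat.pow_le_pow_left (by omega) 6)
    omega
  obtain ⟨M, hM⟩ : ∃ M, M = L * T := ⟨_, rfl⟩
  have hTM : T ≤ M := by
    rw [hM]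
    exact Nat.le_mul_of_pos_left _ hL1
  have c1 : 3 * M ≤ H := by
    calc 3 * M = (3 * L) * T := by rw [hM]; ring
      _ ≤ T * T := Nat.mul_le_mul_right _ (by omega)
      _ = T ^ 2 := by ring
      _ ≤ T ^ 6 := Nat.pow_le_pow_right hT1 (by norm_num)
      _ ≤ m * T ^ 6 := Nat.le_mul_of_pos_left _ hm
      _ ≤ H := hT2
  have c2 : H ≤ M ^ 7 := by
    calc H ≤ m * (2 * T) ^ 6 := hT3.le
      _ = 64 * m * T ^ 6 := by ring
      _ ≤ L * T ^ 6 := Nat.mul_le_mul_right _ (by omega)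
      _ ≤ L ^ 7 * T ^ 7 := Nat.mul_le_mul (Nat.le_self_pow (by norm_num) _)
          (Nat.pow_le_pow_right hT1 (by norm_num))
      _ = M ^ 7 := by rw [hM]; ring
  have hp := hM0 M H (by omega) c1 c2
  have key : ∀ c ∈ F4 H, ∃ p : ℤ × ℤ, ∃ e s : ℤ, Pr c e s ∧ p = (3 * e + 2 * s, 3 * e - 2 * s) := by
    intro c hc
    obtain ⟨-, -, -, e, s, hP⟩ := mem_F4.1 hc
    exact ⟨_, e, s, hP, rfl⟩
  choose! F hF using key
  have hle : ((F4 H).filter (fun c => ¬ LawV δ H (Sha (Sh c.1 c.2)))).card ≤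
      ((Icc (-(M : ℤ)) M ×ˢ Icc (-(M : ℤ)) M).filter (BadP δ H)).card := by
    apply card_le_card_of_injOn F
    · intro c hc
      rw [mem_coe, mem_filter] at hc
      obtain ⟨hc1, hc2⟩ := hc
      obtain ⟨e, s, hP, hFc⟩ := hF c hc1
      obtain ⟨hD, hHl, -, -⟩ := mem_F4.1 hc1
      obtain ⟨hA, hB⟩ := hP
      have g1 : s ^ 2 - 3 * e ^ 2 = 1 ^ 4 * c.1 := by rw [hA]; ring
      have g2 : 2 * e ^ 3 - s ^ 2 * e = 1 ^ 6 * c.2 := by rw [hB]; ring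
      obtain ⟨n1, n2, n3⟩ := par_ne hD g1 g2 one_ne_zero
      obtain ⟨⟨f1⟩, -⟩ := to_WI (r := e) hD one_ne_zero (by ring) g1 g2
      obtain ⟨q1, q2⟩ := hHl
      have hB2 : c.2 ^ 2 = e ^ 2 * (2 * e ^ 2 - s ^ 2) ^ 2 := by rw [hB]; ring
      rw [hA] at q1
      rw [hB2] at q2
      obtain ⟨b1, b2⟩ := par_bound (sq_nonneg e) (sq_nonneg s) q1 q2
      have hmax : ∀ x y : ℤ, (x ^ 2) ^ 3 ≤ 1024 * (H : ℤ) → (y ^ 2) ^ 3 ≤ 1024 * (H : ℤ) →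
          |3 * x + 2 * y| ≤ (M : ℤ) := by
        intro x y hx hy
        obtain ⟨z, hz⟩ : ∃ z, z = max |x| |y| := ⟨_, rfl⟩
        have hz0 : 0 ≤ z := by rw [hz]; exact le_max_of_le_left (abs_nonneg _)
        have hz6 : z ^ 6 ≤ 1024 * (H : ℤ) := by
          rcases max_choice |x| |y| with h | h
          · rw [hz, h]
            calc |x| ^ 6 = (|x| ^ 2) ^ 3 := by ring
              _ = (x ^ 2) ^ 3 := by rw [sq_abs]
              _ ≤ _ := hx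
          · rw [hz, h]
            calc |y| ^ 6 = (|y| ^ 2) ^ 3 := by ring
              _ = (y ^ 2) ^ 3 := by rw [sq_abs]
              _ ≤ _ := hy
        have h5 : |3 * x + 2 * y| ≤ 5 * z := by
          have e1 : |3 * x + 2 * y| ≤ |3 * x| + |2 * y| := abs_add_le _ _
          rw [abs_mul, abs_mul] at e1
          have e2 : |x| ≤ z := by rw [hz]; exact le_max_left _ _
          have e3 : |y| ≤ z := by rw [hz]; exact le_max_right _ _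
          norm_num at e1
          linarith
        have h6 : (5 * z) ^ 6 ≤ (M : ℤ) ^ 6 := by
          have e1 : (5 * z) ^ 6 = 5 ^ 6 * z ^ 6 := by ring
          have e2 : (H : ℤ) ≤ m * (2 * (T : ℤ)) ^ 6 := by exact_mod_cast hT3.le
          have e3 : ((L : ℕ) : ℤ) = 5 ^ 6 * 1024 * 64 * m := by rw [hL]; push_cast; ring
          have e4 : ((L : ℕ) : ℤ) * (T : ℤ) ^ 6 ≤ (L : ℤ) ^ 6 * (T : ℤ) ^ 6 := by
            have : L * T ^ 6 ≤ L ^ 6 * T ^ 6 :=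
              Nat.mul_le_mul_right _ (Nat.le_self_pow (by norm_num) _)
            exact_mod_cast this
          calc (5 * z) ^ 6 = 5 ^ 6 * z ^ 6 := e1
            _ ≤ 5 ^ 6 * (1024 * (H : ℤ)) := mul_le_mul_of_nonneg_left hz6 (by norm_num)
            _ ≤ 5 ^ 6 * (1024 * (m * (2 * (T : ℤ)) ^ 6)) := by
                apply mul_le_mul_of_nonneg_left _ (by norm_num)
                exact mul_le_mul_of_nonneg_left e2 (by norm_num)
            _ = (L : ℤ) * (T : ℤ) ^ 6 := by rw [e3]; ring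
            _ ≤ (L : ℤ) ^ 6 * (T : ℤ) ^ 6 := e4
            _ = (M : ℤ) ^ 6 := by rw [hM]; push_cast; ring
        have h7 : 5 * z ≤ (M : ℤ) := le_of_pow_le_pow_left₀ (by norm_num) (by positivity) h6
        exact h5.trans h7
      have k1 := hmax e s b1 b2
      have k2 := hmax e (-s) b1 (by rw [neg_sq]; exact b2)
      have e2 : 3 * e + 2 * -s = 3 * e - 2 * s := by ring
      rw [e2] at k2
      rw [abs_le] at k1 k2
      rw [mem_coe, mem_filter, mem_product, mem_Icc, mem_Icc, hFc]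
      exact ⟨⟨k1, k2⟩, n1, n2, n3, fun h => hc2 (h.congr f1)⟩
    · intro c hc c' hc' h
      rw [mem_coe, mem_filter] at hc hc'
      obtain ⟨e, s, ⟨hA, hB⟩, hFc⟩ := hF c hc.1
      obtain ⟨e', s', ⟨hA', hB'⟩, hFc'⟩ := hF c' hc'.1
      rw [hFc, hFc', Prod.mk.injEq] at h
      obtain ⟨h1, h2⟩ := h
      have h3 : e = e' := by linarith
      have h4 : s = s' := by linarith
      subst h3 h4
      exact Prod.ext (by rw [hA, hA']) (by rw [hB, hB'])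
  have hF4 := F4_ge H
  have hT4' : a / 3 * (T : ℝ) ^ 2 ≤ (F4 H).card := by linarith
  calc (((F4 H).filter (fun c => ¬ LawV δ H (Sha (Sh c.1 c.2)))).card : ℝ)
      ≤ (((Icc (-(M : ℤ)) M ×ˢ Icc (-(M : ℤ)) M).filter (BadP δ H)).card : ℝ) := by
        exact_mod_cast hle
    _ ≤ ε * a / (3 * L ^ 2) * M ^ 2 := hp
    _ = ε * (a / 3 * (T : ℝ) ^ 2) := by
        rw [hM]
        push_cast
        field_simp
    _ ≤ ε * (F4 H).card := mul_le_mul_of_nonneg_left hT4' hε.le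

/-- finitely many rational points, and the 2-primary part of `Ш` is killed by two -/
def Good0 (c : ℤ × ℤ) : Prop := Finite (Sh c.1 c.2).toAffine.Point ∧
  ∀ (x : Sha (Sh c.1 c.2)) (j : ℕ), (2 ^ j) • x = 0 → x + x = 0

/-- the isogenous curve -/
theorem good_of {c : ℤ × ℤ} {d : (ℤ × ℤ) × ℤ} (hR : RR c d) (hD : Dn c) (hDd : Dn d.1)
    (h4 : (SelR c.1 c.2).ncard = 4) : Good0 d.1 := by
  obtain ⟨e, s, w, hw, h1, h2, h3, h5, h6⟩ := hR
  obtain ⟨n1, n2, n3⟩ := par_ne hDd h5 h6 hw.ne'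
  obtain ⟨⟨f1⟩, ⟨f2⟩⟩ := to_WI hDd hw.ne' h3 h5 h6
  -- the roots
  have g1 : (s : ℚ) ^ 2 = (-3 * e ^ 2 - 16 * c.1) / 4 := by
    have : (-3 * (e : ℚ) ^ 2 - 4 * s ^ 2) = 2 ^ 4 * c.1 := by exact_mod_cast h1
    linarith
  have g2 : 2 * (e : ℚ) ^ 3 - 8 * e * s ^ 2 = 2 ^ 6 * c.2 := by exact_mod_cast h2
  have g1' : -3 * (e : ℚ) ^ 2 - 4 * s ^ 2 = 2 ^ 4 * c.1 := by exact_mod_cast h1
  obtain ⟨i1, hi1⟩ := Pool.Agent.W135.RT.int_root (A := c.1) (B := c.2) (e := -(e : ℚ) / 2) (by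
    linear_combination ((e : ℚ) / 32) * g1' - (1 / 64) * g2)
  obtain ⟨i2, hi2⟩ := Pool.Agent.W135.RT.int_root (A := c.1) (B := c.2)
    (e := ((e : ℚ) + 2 * s) / 4) (by
    linear_combination (-((e : ℚ) + 2 * s) / 64) * g1' - (1 / 64) * g2)
  obtain ⟨i3, hi3⟩ := Pool.Agent.W135.RT.int_root (A := c.1) (B := c.2)
    (e := ((e : ℚ) - 2 * s) / 4) (by
    linear_combination (-((e : ℚ) - 2 * s) / 64) * g1' - (1 / 64) * g2)
  have hcub : ∀ x : ℤ, x ^ 3 + c.1 * x + c.2 = (x - i1) * (x - i2) * (x - i3) := by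
    intro x
    have : ((x : ℚ) ^ 3 + c.1 * x + c.2) = (x - i1) * (x - i2) * (x - i3) := by
      rw [← hi1, ← hi2, ← hi3]
      linear_combination (-(x : ℚ) / 16) * g1' - (1 / 64) * g2
    exact_mod_cast this
  have hSf : (Sel (3 * e + 2 * s) (3 * e - 2 * s)).Finite :=
    Pool.Agent.W307.SE.sel_fin Pool.Agent.W410.FK.seld n1 n2 n3
  obtain ⟨-, hS⟩ := Pool.Agent.Y212.RZ.SELC2 c.1 c.2 i1 i2 i3 (3 * e + 2 * s) (3 * e - 2 * s)
    (1 / 2) hD hcub (by norm_num) (by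
      push_cast
      rw [← hi1, ← hi2]
      ring) (by
      push_cast
      rw [← hi1, ← hi3]
      ring) hSf
  have hS4 : (Sel (3 * e + 2 * s) (3 * e - 2 * s)).ncard ≤ 4 := by omega
  obtain ⟨-, -, o3⟩ := Pool.Agent.Y676.IS.one Pool.Agent.Y497.IS.lcb Pool.Agent.Y500.IS.lqu
    Pool.Agent.Y500.IS.sqf n1 n2 n3 hS4
  obtain ⟨p1, k, -, φ, -, p4⟩ := o3 0
  have p1' : Finite (WI (3 * e + 2 * s) (3 * e - 2 * s)).toAffine.Point := p1
  refine ⟨Finite.of_equiv _ f2.toEquiv, fun x j hx => ?_⟩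
  have hx' : (2 ^ j) • f1.symm x = 0 := by rw [← map_nsmul, hx, map_zero]
  obtain ⟨v, hv⟩ := (p4 (f1.symm x)).2 ⟨j, hx'⟩
  have h7 : f1.symm x + f1.symm x = 0 := by
    rw [← hv]
    change φ v + φ v = 0
    rw [← map_add]
    have : v + v = 0 := by
      funext i
      exact CharTwo.add_self_eq_zero _
    rw [this, map_zero]
  have h8 := congrArg f1 h7
  rw [map_add, map_zero, f1.apply_symm_apply] at h8
  exact h8

open Classical in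
/-- **a positive proportion of the curves** -/
theorem pos4 : ∃ κ : ℝ, 0 < κ ∧ ∃ H0 : ℕ, ∀ H : ℕ, H0 ≤ H →
    κ * ((F4 H).card : ℝ) ≤ (((F4 H).filter Good0).card : ℝ) := by
  obtain ⟨c0, hc0, H1, h1⟩ := Pool.Agent.Y667.RZ.curvesW
  obtain ⟨D, hD, H2, h2⟩ := compare'
  refine ⟨c0 / (3 * D), by positivity, max (5000 * H1) H2, fun H hH => ?_⟩
  have hH1 : H1 ≤ H / 5000 := by
    rw [Nat.le_div_iff_mul_le (by norm_num)]
    have := (le_max_left (5000 * H1) H2).trans hH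
    omega
  have hH2 : H2 ≤ H := (le_max_right _ _).trans hH
  have g1 := (h1 (H / 5000) hH1).1
  have g2 := h2 H hH2
  obtain ⟨GG, hGG⟩ : ∃ GG : ℤ × ℤ → Prop, ∀ c, GG c ↔
      (SelR c.1 c.2).Finite ∧ (SelR c.1 c.2).ncard = 4 := ⟨_, fun _ => Iff.rfl⟩
  have g4 := sum_rel (Cv 2 (H / 5000)) (F4 (5000 * (H / 5000))) RR
    (fun c => if GG c then (1 : ℝ) else 0)
    (fun c => if Good0 c then (1 : ℝ) else 0) (fun c => by
      change (0 : ℝ) ≤ if Good0 c then (1 : ℝ) else 0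
      split_ifs <;> norm_num) (fun c hc => by
      obtain ⟨k1, k2, -, k3⟩ := mem_Cv2.1 hc
      obtain ⟨d, q1, q2, q3, q4, q5, q6, -⟩ := exists_rev k1 k3 k2
      refine ⟨d, q1, mem_F4.2 ⟨q2, q4, q3, q5⟩, q6, ?_⟩
      by_cases h : GG c
      · have h8 : Good0 d.1 := good_of q1 k1 q2 ((hGG c).1 h).2
        change (if GG c then (1 : ℝ) else 0) ≤ if Good0 d.1 then (1 : ℝ) else 0
        rw [if_pos h, if_pos h8]
      · change (if GG c then (1 : ℝ) else 0) ≤ if Good0 d.1 then (1 : ℝ) else 0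
        rw [if_neg h]
        split_ifs <;> norm_num) (fun c1 h1 c2 h2 d r1 r2 =>
      RR_inj r1 r2 (mem_Cv2.1 h1).2.2.1 (mem_Cv2.1 h2).2.2.1)
  have g5 : ∑ c ∈ F4 (5000 * (H / 5000)), (if Good0 c then (1 : ℝ) else 0) ≤
      ∑ c ∈ F4 H, (if Good0 c then (1 : ℝ) else 0) :=
    sum_le_sum_of_subset_of_nonneg (F4_mono (Nat.mul_div_le H 5000))
      (fun c _ _ => by split_ifs <;> norm_num)
  have e1 : ∀ (S : Finset (ℤ × ℤ)) (P : ℤ × ℤ → Prop), ((S.filter P).card : ℝ) =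
      ∑ c ∈ S, (if P c then (1 : ℝ) else 0) := by
    intro S P
    rw [sum_ite, sum_const, sum_const_zero, add_zero, nsmul_eq_mul, mul_one]
  have g6 : (((Cv 2 (H / 5000)).filter (fun k : ℤ × ℤ => (SelR k.1 k.2).Finite ∧
      (SelR k.1 k.2).ncard = 4 ∧ Module.finrank ℤ (Sh k.1 k.2).toAffine.Point = 0)).card : ℝ) ≤
      ∑ c ∈ Cv 2 (H / 5000), (if GG c then (1 : ℝ) else 0) := by
    rw [← e1]
    refine Nat.cast_le.2 (card_le_card fun c hc => ?_)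
    rw [mem_filter] at hc ⊢
    exact ⟨hc.1, (hGG c).2 ⟨hc.2.1, hc.2.2.1⟩⟩
  have g7 : c0 * ((Cv 2 (H / 5000)).card : ℝ) ≤
      3 * ∑ c ∈ F4 H, (if Good0 c then (1 : ℝ) else 0) := by linarith
  have e2 := e1 (F4 H) Good0
  calc c0 / (3 * D) * ((F4 H).card : ℝ) ≤ c0 / (3 * D) * (D * (Cv 2 (H / 5000)).card) := by
        gcongr
    _ = c0 * ((Cv 2 (H / 5000)).card : ℝ) / 3 := by field_simp
    _ ≤ _ := by
      rw [e2]
      linarith

end Pool.Agent.Q269.ShaFour
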