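import Pool.Agent.Q269.ShaFour.Box

/-!
# Project ShaFour: almost all the pairs, not necessarily coprime
-/

set_option autoImplicit false
set_option linter.unusedSectionVars false

namespace Pool.Agent.Q269.ShaFour

open Finset WeierstrassCurve

open Pool.Agent.TH841.SH.D

open Pool.Agent.TH841.LS (WI)

/-- the bad pairs -/
def BadP (δ : ℝ) (H : ℕ) (p : ℤ × ℤ) : Prop :=
  p.1 ≠ 0 ∧ p.2 ≠ 0 ∧ p.1 ≠ p.2 ∧ ¬ LawV δ H (Sha (WI p.1 p.2))

/-- the nonzero multiples -/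
lemma mult_card (M D : ℕ) (hD : 0 < D) :
    ((Icc (-(M : ℤ)) M).filter (fun x : ℤ => x ≠ 0 ∧ (D : ℤ) ∣ x)).card ≤ 2 * (M / D) := by
  classical
  have hD' : (0 : ℤ) < D := by exact_mod_cast hD
  have h1 : ((Icc (-(M : ℤ)) M).filter (fun x : ℤ => x ≠ 0 ∧ (D : ℤ) ∣ x)).card ≤
      ((Icc (-((M / D : ℕ) : ℤ)) ((M / D : ℕ) : ℤ)).erase 0).card := by
    apply card_le_card_of_injOn (fun x : ℤ => x / (D : ℤ))
    · intro x hx
      rw [mem_coe, mem_filter, mem_Icc] at hx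
      obtain ⟨⟨h1, h2⟩, h3, y, rfl⟩ := hx
      rw [mem_coe, mem_erase, mem_Icc]
      have e1 : (D : ℤ) * y / D = y := Int.mul_ediv_cancel_left y hD'.ne'
      change (D : ℤ) * y / D ≠ 0 ∧ -((M / D : ℕ) : ℤ) ≤ (D : ℤ) * y / D ∧
        (D : ℤ) * y / D ≤ ((M / D : ℕ) : ℤ)
      rw [e1]
      have hy : |y| ≤ ((M / D : ℕ) : ℤ) := by
        push_cast
        rw [Int.le_ediv_iff_mul_le hD']
        have : |y| * D = |(D : ℤ) * y| := by
          rw [abs_mul, abs_of_pos hD', mul_comm]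
        rw [this, abs_le]
        exact ⟨h1, h2⟩
      rw [abs_le] at hy
      refine ⟨?_, hy.1, hy.2⟩
      rintro rfl
      apply h3
      rw [mul_zero]
    · intro x hx y hy hxy
      rw [mem_coe, mem_filter] at hx hy
      obtain ⟨-, -, a, rfl⟩ := hx
      obtain ⟨-, -, b, rfl⟩ := hy
      have hxy' : (D : ℤ) * a / D = (D : ℤ) * b / D := hxy
      rw [Int.mul_ediv_cancel_left a hD'.ne', Int.mul_ediv_cancel_left b hD'.ne'] at hxy'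
      rw [hxy']
  refine h1.trans ?_
  rw [card_erase_of_mem (by
    rw [mem_Icc]
    constructor
    · have : (0 : ℤ) ≤ ((M / D : ℕ) : ℤ) := Int.natCast_nonneg _
      linarith
    · exact Int.natCast_nonneg _), Int.card_Icc]
  omega

open Classical in
/-- **almost all pairs** -/
theorem pairs (δ ε : ℝ) (hδ : 0 < δ) (hε : 0 < ε) : ∃ M0 : ℕ, ∀ M H : ℕ, M0 ≤ M → 3 * M ≤ H →
    H ≤ M ^ 7 →
    (((Icc (-(M : ℤ)) M ×ˢ Icc (-(M : ℤ)) M).filter (BadP δ H)).card : ℝ) ≤ ε * M ^ 2 := by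
  obtain ⟨D0, hD0⟩ : ∃ D0 : ℕ, 8 / ε + 1 ≤ D0 := exists_nat_ge _
  have hD0r : (1 : ℝ) ≤ D0 := by
    have : 0 < 8 / ε := by positivity
    linarith
  have hD0' : 1 ≤ D0 := by exact_mod_cast hD0r
  obtain ⟨Mc, hMc⟩ := law_cmp δ hδ 8 (by norm_num)
  have hb : ∀ D : ℕ, ∃ X0 : ℕ, 1 ≤ D → ∀ (N : ℤ) (X : ℕ), X0 ≤ X → N.natAbs ≤ X →
      (((Icc 1 X ×ˢ Icc 1 X).filter (fun t : ℕ × ℕ =>
        IsCoprime (N + (t.1 : ℤ)) (N + (t.2 : ℤ)) ∧
        ¬ ∀ A B : ℤ, A = (D : ℤ) * (N + (t.1 : ℤ)) → B = (D : ℤ) * (N + (t.2 : ℤ)) →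
        A ≠ 0 ∧ B ≠ 0 ∧ A ≠ B ∧ LawV (δ / 2) X (Sha (WI A B)))).card : ℝ) ≤
          ε / (18 * D0) * X ^ 2 := by
    intro D
    rcases Nat.eq_zero_or_pos D with h0 | h0
    · exact ⟨0, fun h => by omega⟩
    · obtain ⟨X0, hX0⟩ := box (D : ℤ) (by exact_mod_cast h0.ne') (δ / 2) (ε / (18 * D0))
        (by positivity) (by positivity)
      exact ⟨X0, fun _ => hX0⟩
  choose X0 hX0 using hb
  refine ⟨D0 * (∑ D ∈ Icc 1 D0, X0 D + Mc + 1) + D0 ^ 8 + 1, fun M H hM hH1 hH2 => ?_⟩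
  have hM1 : 1 ≤ M := by omega
  have hMD8 : D0 ^ 8 ≤ M := by omega
  have hMD : D0 * (∑ D ∈ Icc 1 D0, X0 D + Mc + 1) ≤ M := by omega
  have hDM : D0 ≤ M := (Nat.le_self_pow (by norm_num) D0).trans hMD8
  have hMr : (1 : ℝ) ≤ M := by exact_mod_cast hM1
  set S := (Icc (-(M : ℤ)) M ×ˢ Icc (-(M : ℤ)) M).filter (BadP δ H) with hS
  have hmem : ∀ p ∈ S, -(M : ℤ) ≤ p.1 ∧ p.1 ≤ M ∧ -(M : ℤ) ≤ p.2 ∧ p.2 ≤ M ∧ BadP δ H p := by
    intro p hp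
    rw [hS, mem_filter, mem_product, mem_Icc, mem_Icc] at hp
    exact ⟨hp.1.1.1, hp.1.1.2, hp.1.2.1, hp.1.2.2, hp.2⟩
  have hmaps : ∀ p ∈ S, Int.gcd p.1 p.2 ∈ Icc 1 M := by
    intro p hp
    obtain ⟨h1, h2, -, -, h5, -⟩ := hmem p hp
    rw [mem_Icc]
    constructor
    · exact Int.gcd_pos_of_ne_zero_left _ h5
    · have h6 : ((Int.gcd p.1 p.2 : ℕ) : ℤ) ∣ p.1 := Int.gcd_dvd_left ..
      have h7 := Nat.le_of_dvd (Int.natAbs_pos.2 h5) (Int.natCast_dvd.1 h6)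
      omega
  have hsum : S.card = ∑ D ∈ Icc 1 M, (S.filter (fun p => Int.gcd p.1 p.2 = D)).card :=
    card_eq_sum_card_fiberwise hmaps
  -- small gcd
  have hsmall : ∀ D ∈ Icc 1 D0, ((S.filter (fun p => Int.gcd p.1 p.2 = D)).card : ℝ) ≤
      ε / (2 * D0) * M ^ 2 := by
    intro D hD
    rw [mem_Icc] at hD
    obtain ⟨hD1, hD2⟩ := hD
    obtain ⟨Y, hY⟩ : ∃ Y, Y = M / D := ⟨_, rfl⟩
    have hX0D : X0 D ≤ ∑ D ∈ Icc 1 D0, X0 D :=
      single_le_sum (f := fun D => X0 D) (fun _ _ => Nat.zero_le _) (mem_Icc.2 ⟨hD1, hD2⟩)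
    have hYb : ∑ D ∈ Icc 1 D0, X0 D + Mc + 1 ≤ Y := by
      rw [hY, Nat.le_div_iff_mul_le hD1]
      calc (∑ D ∈ Icc 1 D0, X0 D + Mc + 1) * D ≤ (∑ D ∈ Icc 1 D0, X0 D + Mc + 1) * D0 :=
            Nat.mul_le_mul_left _ hD2
        _ = D0 * (∑ D ∈ Icc 1 D0, X0 D + Mc + 1) := mul_comm _ _
        _ ≤ M := hMD
    have hYM : Y ≤ M := hY ▸ Nat.div_le_self _ _
    have hXM : 2 * Y + 1 ≤ 3 * M := by omega
    have hXH : 2 * Y + 1 ≤ H := hXM.trans hH1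
    have hMX : M ≤ (2 * Y + 1) * D0 := by
      have h1 : M < D * (Y + 1) := by
        rw [hY]
        exact Nat.lt_mul_div_succ M hD1
      have h2 : D * (Y + 1) ≤ D0 * (2 * Y + 1) := Nat.mul_le_mul hD2 (by omega)
      have h3 : D0 * (2 * Y + 1) = (2 * Y + 1) * D0 := mul_comm _ _
      omega
    have hHX : H ≤ (2 * Y + 1) ^ 8 := by
      have h1 : M ^ 8 ≤ (2 * Y + 1) ^ 8 * D0 ^ 8 := by
        rw [← mul_pow]
        exact Nat.pow_le_pow_left hMX 8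
      have h2 : H * D0 ^ 8 ≤ M ^ 8 := by
        calc H * D0 ^ 8 ≤ M ^ 7 * M := Nat.mul_le_mul hH2 hMD8
          _ = M ^ 8 := by ring
      exact Nat.le_of_mul_le_mul_right (h2.trans h1) (by positivity)
    have hbx := hX0 D hD1 (-((Y : ℤ) + 1)) (2 * Y + 1) (by omega) (by omega)
    have hle : (S.filter (fun p => Int.gcd p.1 p.2 = D)).card ≤
        ((Icc 1 (2 * Y + 1) ×ˢ Icc 1 (2 * Y + 1)).filter (fun t : ℕ × ℕ =>
        IsCoprime (-((Y : ℤ) + 1) + (t.1 : ℤ)) (-((Y : ℤ) + 1) + (t.2 : ℤ)) ∧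
        ¬ ∀ A B : ℤ, A = (D : ℤ) * (-((Y : ℤ) + 1) + (t.1 : ℤ)) →
          B = (D : ℤ) * (-((Y : ℤ) + 1) + (t.2 : ℤ)) →
        A ≠ 0 ∧ B ≠ 0 ∧ A ≠ B ∧ LawV (δ / 2) (2 * Y + 1) (Sha (WI A B)))).card := by
      have hD' : (0 : ℤ) < D := by exact_mod_cast hD1
      have key : ∀ p ∈ S.filter (fun p => Int.gcd p.1 p.2 = D), ∃ a b : ℤ, p.1 = D * a ∧
          p.2 = D * b ∧ IsCoprime a b ∧ |a| ≤ Y ∧ |b| ≤ Y := by
        intro p hp
        rw [mem_filter] at hp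
        obtain ⟨hp1, hp2⟩ := hp
        obtain ⟨h1, h2, h3, h4, h5, -⟩ := hmem p hp1
        have hg : 0 < Int.gcd p.1 p.2 := by omega
        obtain ⟨a, b, hab, ha, hb⟩ := Int.exists_gcd_one hg
        rw [hp2] at ha hb
        have hbd : ∀ x y : ℤ, x = y * D → -(M : ℤ) ≤ x → x ≤ M → |y| ≤ Y := by
          intro x y hxy q1 q2
          rw [hY]
          push_cast
          rw [Int.le_ediv_iff_mul_le hD']
          have : |y| * D = |x| := by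
            rw [hxy, abs_mul, abs_of_pos hD']
          rw [this, abs_le]
          exact ⟨q1, q2⟩
        exact ⟨a, b, by rw [ha, mul_comm], by rw [hb, mul_comm], Int.isCoprime_iff_gcd_eq_one.2 hab,
          hbd _ _ ha h1 h2, hbd _ _ hb h3 h4⟩
      apply card_le_card_of_injOn (fun p : ℤ × ℤ =>
        ((p.1 / (D : ℤ) + ((Y : ℤ) + 1)).toNat, (p.2 / (D : ℤ) + ((Y : ℤ) + 1)).toNat))
      · intro p hp
        obtain ⟨a, b, ha, hb, hab, ha', hb'⟩ := key p hp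
        have e1 : p.1 / D = a := by rw [ha]; exact Int.mul_ediv_cancel_left a hD'.ne'
        have e2 : p.2 / D = b := by rw [hb]; exact Int.mul_ediv_cancel_left b hD'.ne'
        rw [abs_le] at ha' hb'
        rw [mem_coe, mem_filter, mem_product, mem_Icc, mem_Icc]
        change ((1 ≤ (p.1 / D + (Y + 1)).toNat ∧ (p.1 / D + (Y + 1)).toNat ≤ 2 * Y + 1) ∧
          1 ≤ (p.2 / D + (Y + 1)).toNat ∧ (p.2 / D + (Y + 1)).toNat ≤ 2 * Y + 1) ∧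
          IsCoprime (-((Y : ℤ) + 1) + ((p.1 / D + (Y + 1)).toNat : ℤ))
            (-((Y : ℤ) + 1) + ((p.2 / D + (Y + 1)).toNat : ℤ)) ∧
          ¬ ∀ A B : ℤ, A = (D : ℤ) * (-((Y : ℤ) + 1) + ((p.1 / D + (Y + 1)).toNat : ℤ)) →
          B = (D : ℤ) * (-((Y : ℤ) + 1) + ((p.2 / D + (Y + 1)).toNat : ℤ)) →
          A ≠ 0 ∧ B ≠ 0 ∧ A ≠ B ∧ LawV (δ / 2) (2 * Y + 1) (Sha (WI A B))
        rw [e1, e2]
        have e3 : -((Y : ℤ) + 1) + ((a + (Y + 1)).toNat : ℤ) = a := by omega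
        have e4 : -((Y : ℤ) + 1) + ((b + (Y + 1)).toNat : ℤ) = b := by omega
        rw [e3, e4]
        refine ⟨⟨⟨by omega, by omega⟩, by omega, by omega⟩, hab, fun hall => ?_⟩
        obtain ⟨-, -, -, hlaw⟩ := hall p.1 p.2 ha hb
        have hbad := (hmem p (mem_filter.1 hp).1).2.2.2.2.2.2.2
        exact hbad (hMc (2 * Y + 1) H _ (by omega) hXH hHX hlaw)
      · intro p hp q hq hpq
        obtain ⟨a, b, ha, hb, hab, ha', hb'⟩ := key p hp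
        obtain ⟨a2, b2, ha2, hb2, hab2, ha2', hb2'⟩ := key q hq
        have e1 : p.1 / D = a := by rw [ha]; exact Int.mul_ediv_cancel_left a hD'.ne'
        have e2 : p.2 / D = b := by rw [hb]; exact Int.mul_ediv_cancel_left b hD'.ne'
        have e3 : q.1 / D = a2 := by rw [ha2]; exact Int.mul_ediv_cancel_left a2 hD'.ne'
        have e4 : q.2 / D = b2 := by rw [hb2]; exact Int.mul_ediv_cancel_left b2 hD'.ne'
        have h1 : (p.1 / D + (Y + 1)).toNat = (q.1 / D + (Y + 1)).toNat := congrArg Prod.fst hpq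
        have h2 : (p.2 / D + (Y + 1)).toNat = (q.2 / D + (Y + 1)).toNat := congrArg Prod.snd hpq
        rw [e1, e3] at h1
        rw [e2, e4] at h2
        rw [abs_le] at ha' hb' ha2' hb2'
        have h3 : a = a2 := by omega
        have h4 : b = b2 := by omega
        exact Prod.ext (by rw [ha, ha2, h3]) (by rw [hb, hb2, h4])
    have hle' : ((S.filter (fun p => Int.gcd p.1 p.2 = D)).card : ℝ) ≤
        ε / (18 * D0) * ((2 * Y + 1 : ℕ) : ℝ) ^ 2 := le_trans (by exact_mod_cast hle) hbx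
    have h9 : ((2 * Y + 1 : ℕ) : ℝ) ^ 2 ≤ (3 * M) ^ 2 := by
      have : ((2 * Y + 1 : ℕ) : ℝ) ≤ 3 * M := by exact_mod_cast hXM
      exact pow_le_pow_left₀ (Nat.cast_nonneg _) this 2
    calc ((S.filter (fun p => Int.gcd p.1 p.2 = D)).card : ℝ)
        ≤ ε / (18 * D0) * ((2 * Y + 1 : ℕ) : ℝ) ^ 2 := hle'
      _ ≤ ε / (18 * D0) * (3 * M) ^ 2 := mul_le_mul_of_nonneg_left h9 (by positivity)
      _ = ε / (2 * D0) * M ^ 2 := by
          field_simp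
          ring
  -- large gcd
  have hlarge : ∀ D ∈ Ioc D0 M, ((S.filter (fun p => Int.gcd p.1 p.2 = D)).card : ℝ) ≤
      4 * (M : ℝ) ^ 2 * ((D : ℝ) ^ 2)⁻¹ := by
    intro D hD
    rw [mem_Ioc] at hD
    have hD1 : 0 < D := by omega
    have h1 : (S.filter (fun p => Int.gcd p.1 p.2 = D)).card ≤ (2 * (M / D)) * (2 * (M / D)) := by
      have h2 : S.filter (fun p => Int.gcd p.1 p.2 = D) ⊆
          ((Icc (-(M : ℤ)) M).filter (fun x : ℤ => x ≠ 0 ∧ (D : ℤ) ∣ x)) ×ˢ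
          ((Icc (-(M : ℤ)) M).filter (fun x : ℤ => x ≠ 0 ∧ (D : ℤ) ∣ x)) := by
        intro p hp
        rw [mem_filter] at hp
        obtain ⟨hp1, hp2⟩ := hp
        obtain ⟨h1, h2, h3, h4, h5, h6, -⟩ := hmem p hp1
        rw [mem_product, mem_filter, mem_filter, mem_Icc, mem_Icc, ← hp2]
        exact ⟨⟨⟨h1, h2⟩, h5, Int.gcd_dvd_left ..⟩, ⟨h3, h4⟩, h6, Int.gcd_dvd_right ..⟩
      refine (card_le_card h2).trans ?_
      rw [card_product]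
      exact Nat.mul_le_mul (mult_card M D hD1) (mult_card M D hD1)
    have hDr : (0 : ℝ) < D := by exact_mod_cast hD1
    have h3 : ((M / D : ℕ) : ℝ) ≤ M / D := Nat.cast_div_le
    calc ((S.filter (fun p => Int.gcd p.1 p.2 = D)).card : ℝ)
        ≤ (2 * ((M / D : ℕ) : ℝ)) * (2 * ((M / D : ℕ) : ℝ)) := by exact_mod_cast h1
      _ ≤ (2 * ((M : ℝ) / D)) * (2 * ((M : ℝ) / D)) := by
          have h4 : (0 : ℝ) ≤ ((M / D : ℕ) : ℝ) := Nat.cast_nonneg _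
          apply mul_le_mul <;> first | positivity | linarith
      _ = 4 * (M : ℝ) ^ 2 * ((D : ℝ) ^ 2)⁻¹ := by
          field_simp
          ring
  have hsplit : (S.card : ℝ) ≤ ∑ D ∈ Icc 1 D0, ε / (2 * D0) * (M : ℝ) ^ 2 +
      ∑ D ∈ Ioc D0 M, 4 * (M : ℝ) ^ 2 * ((D : ℝ) ^ 2)⁻¹ := by
    have h1 : Icc 1 M = Icc 1 D0 ∪ Ioc D0 M := by
      ext x
      rw [mem_union, mem_Icc, mem_Icc, mem_Ioc]
      omega
    have h2 : Disjoint (Icc 1 D0) (Ioc D0 M) := by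
      rw [disjoint_left]
      intro x hx hx'
      rw [mem_Icc] at hx
      rw [mem_Ioc] at hx'
      omega
    rw [hsum, h1, sum_union h2]
    push_cast
    exact add_le_add (sum_le_sum hsmall) (sum_le_sum hlarge)
  have h10 : ∑ D ∈ Ioc D0 M, 4 * (M : ℝ) ^ 2 * ((D : ℝ) ^ 2)⁻¹ ≤ ε / 2 * M ^ 2 := by
    rw [← mul_sum]
    have h1 : ∑ D ∈ Ioc D0 M, ((D : ℝ) ^ 2)⁻¹ ≤ (D0 : ℝ)⁻¹ - (M : ℝ)⁻¹ :=
      sum_Ioc_inv_sq_le_sub (by omega) hDM
    have h2 : (0 : ℝ) < (M : ℝ)⁻¹ := by positivity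
    have h3 : (D0 : ℝ)⁻¹ ≤ ε / 8 := by
      rw [inv_le_comm₀ (by linarith) (by positivity), inv_div]
      linarith
    have h4 : ∑ D ∈ Ioc D0 M, ((D : ℝ) ^ 2)⁻¹ ≤ ε / 8 := by linarith
    calc 4 * (M : ℝ) ^ 2 * ∑ D ∈ Ioc D0 M, ((D : ℝ) ^ 2)⁻¹ ≤ 4 * (M : ℝ) ^ 2 * (ε / 8) :=
          mul_le_mul_of_nonneg_left h4 (by positivity)
      _ = ε / 2 * M ^ 2 := by ring
  have h11 : ∑ D ∈ Icc 1 D0, ε / (2 * D0) * (M : ℝ) ^ 2 = ε / 2 * M ^ 2 := by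
    rw [sum_const, Nat.card_Icc, nsmul_eq_mul]
    have : ((D0 + 1 - 1 : ℕ) : ℝ) = D0 := by
      rw [Nat.add_sub_cancel]
    rw [this]
    field_simp
  linarith

end Pool.Agent.Q269.ShaFour
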